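import Mathlib

set_option autoImplicit false

open Metric Set Filter Topology MeasureTheory

namespace PFrame3

/-- the unit sphere -/
abbrev Sph (d : ℕ) : Type := sphere (0 : EuclideanSpace ℝ (Fin (d + 1))) 1

/-- the `p`-frame energy -/
noncomputable def frameEnergy (d : ℕ) (p : ℝ) (μ : Measure (Sph d)) : ℝ :=
  ∫ x : Sph d, ∫ y : Sph d, |inner ℝ (x : EuclideanSpace ℝ (Fin (d + 1))) y| ^ p ∂μ ∂μ

/-- minimizers -/
def IsMinimizer (d : ℕ) (p : ℝ) (μ : Measure (Sph d)) : Prop :=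
  IsProbabilityMeasure μ ∧
    ∀ ν : Measure (Sph d), IsProbabilityMeasure ν → frameEnergy d p μ ≤ frameEnergy d p ν

end PFrame3
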