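import Pool.Agent.Helper237.P3.Defs

set_option autoImplicit false

open Metric Set Filter Topology MeasureTheory

namespace PFrame3

/-- feature map of the power kernel -/
def Phi (d n : ℕ) (x : EuclideanSpace ℝ (Fin (d + 1))) : (Fin n → Fin (d + 1)) → ℝ :=
  fun i => ∏ j, x (i j)

theorem Phi_inner {d n : ℕ} (x y : EuclideanSpace ℝ (Fin (d + 1))) :
    ∑ i, Phi d n x i * Phi d n y i = (inner ℝ x y) ^ n := by
  have h1 : (inner ℝ x y : ℝ) = ∑ k, x k * y k := by
    simp [PiLp.inner_apply, mul_comm]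
  rw [h1, Fintype.sum_pow]
  refine Finset.sum_congr rfl fun i _ => ?_
  simp only [Phi]
  rw [Finset.prod_mul_distrib]

/-- a functional with prescribed values -/
theorem exists_functional {ι F : Type*} [AddCommGroup F] [Module ℝ F] (Φ : ι → F) (k : ι → ℝ)
    (h : ∀ a : ι →₀ ℝ, a.sum (fun i r => r • Φ i) = 0 → a.sum (fun i r => r * k i) = 0) :
    ∃ l : F →ₗ[ℝ] ℝ, ∀ i, l (Φ i) = k i := by
  let X := Finsupp.linearCombination ℝ Φ
  let m := Finsupp.linearCombination ℝ k
  have hker : LinearMap.ker X ≤ LinearMap.ker m := by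
    intro a ha
    rw [LinearMap.mem_ker] at ha ⊢
    exact h a ha
  let L : LinearMap.range X →ₗ[ℝ] ℝ :=
    ((LinearMap.ker X).liftQ m hker).comp X.quotKerEquivRange.symm.toLinearMap
  have hL : ∀ a, L ⟨X a, LinearMap.mem_range_self X a⟩ = m a := by
    intro a
    simp only [L, LinearMap.comp_apply, LinearEquiv.coe_coe,
      LinearMap.quotKerEquivRange_symm_apply_image]
    rfl
  obtain ⟨g, hg⟩ := L.exists_extend
  refine ⟨g, fun i => ?_⟩
  have h1 := hL (Finsupp.single i 1)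
  have h2 : X (Finsupp.single i 1) = Φ i := by simp [X]
  have h3 : m (Finsupp.single i 1) = k i := by simp [m]
  rw [h3] at h1
  rw [← h1, ← hg]
  simp only [LinearMap.comp_apply, Submodule.subtype_apply]
  rw [h2]

/-- testing the kernel with one more point -/
theorem PD_add {d n : ℕ} {S : Set (EuclideanSpace ℝ (Fin (d + 1)))}
    (hPD : ∀ (s : Finset (EuclideanSpace ℝ (Fin (d + 1))))
      (a : EuclideanSpace ℝ (Fin (d + 1)) → ℝ), (↑s ⊆ S) →
      0 ≤ ∑ x ∈ s, ∑ y ∈ s, a x * a y * |inner ℝ x y| ^ n)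
    (s : Finset (EuclideanSpace ℝ (Fin (d + 1)))) (a : EuclideanSpace ℝ (Fin (d + 1)) → ℝ)
    (hs : ↑s ⊆ S) {y : EuclideanSpace ℝ (Fin (d + 1))} (hy : y ∈ S) (t : ℝ) :
    0 ≤ (∑ x ∈ s, ∑ x' ∈ s, a x * a x' * |inner ℝ x x'| ^ n) +
      2 * t * (∑ x ∈ s, a x * |inner ℝ x y| ^ n) + t ^ 2 * |inner ℝ y y| ^ n := by
  classical
  have h := hPD (insert y s) (fun x => (if x ∈ s then a x else 0) + (if x = y then t else 0)) (by
    intro z hz
    rw [Finset.coe_insert, Set.mem_insert_iff] at hz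
    rcases hz with rfl | hz
    · exact hy
    · exact hs hz)
  have e1 : ∀ f : EuclideanSpace ℝ (Fin (d + 1)) → ℝ,
      ∑ x ∈ insert y s, (if x ∈ s then a x else 0) * f x = ∑ x ∈ s, a x * f x := by
    intro f
    have h1 : ∑ x ∈ s, a x * f x = ∑ x ∈ s, (if x ∈ s then a x else 0) * f x := by
      refine Finset.sum_congr rfl fun x hx => ?_
      rw [if_pos hx]
    rw [h1]
    symm
    apply Finset.sum_subset (Finset.subset_insert _ _)
    intro x _ hx
    rw [if_neg hx, zero_mul]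
  have e2 : ∀ f : EuclideanSpace ℝ (Fin (d + 1)) → ℝ,
      ∑ x ∈ insert y s, (if x = y then t else 0) * f x = t * f y := by
    intro f
    rw [Finset.sum_eq_single y]
    · rw [if_pos rfl]
    · intro x _ hx
      rw [if_neg hx, zero_mul]
    · intro hx
      exact absurd (Finset.mem_insert_self _ _) hx
  have e3 : ∑ x ∈ insert y s, ∑ x' ∈ insert y s,
      ((if x ∈ s then a x else 0) + (if x = y then t else 0)) *
      ((if x' ∈ s then a x' else 0) + (if x' = y then t else 0)) * |inner ℝ x x'| ^ n =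
      (∑ x ∈ s, ∑ x' ∈ s, a x * a x' * |inner ℝ x x'| ^ n) +
      2 * t * (∑ x ∈ s, a x * |inner ℝ x y| ^ n) + t ^ 2 * |inner ℝ y y| ^ n := by
    have h1 : ∀ x : EuclideanSpace ℝ (Fin (d + 1)), ∑ x' ∈ insert y s,
      ((if x ∈ s then a x else 0) + (if x = y then t else 0)) *
      ((if x' ∈ s then a x' else 0) + (if x' = y then t else 0)) * |inner ℝ x x'| ^ n =
      (if x ∈ s then a x else 0) * ((∑ x' ∈ s, a x' * |inner ℝ x x'| ^ n) +
        t * |inner ℝ x y| ^ n) +
      (if x = y then t else 0) * ((∑ x' ∈ s, a x' * |inner ℝ x x'| ^ n) +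
        t * |inner ℝ x y| ^ n) := by
      intro x
      have h2 := e1 (fun x' => |inner ℝ x x'| ^ n)
      have h3 := e2 (fun x' => |inner ℝ x x'| ^ n)
      rw [← h2, ← h3, ← add_mul, ← Finset.sum_add_distrib, Finset.mul_sum]
      refine Finset.sum_congr rfl fun x' _ => ?_
      ring
    rw [Finset.sum_congr rfl fun x _ => h1 x, Finset.sum_add_distrib, e1, e2]
    have h4 : ∑ x ∈ s, a x * ((∑ x' ∈ s, a x' * |inner ℝ x x'| ^ n) + t * |inner ℝ x y| ^ n) =
        (∑ x ∈ s, ∑ x' ∈ s, a x * a x' * |inner ℝ x x'| ^ n) +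
        t * ∑ x ∈ s, a x * |inner ℝ x y| ^ n := by
      rw [Finset.mul_sum, ← Finset.sum_add_distrib]
      refine Finset.sum_congr rfl fun x _ => ?_
      rw [mul_add, Finset.mul_sum]
      congr 1
      · refine Finset.sum_congr rfl fun x' _ => ?_
        ring
      · ring
    have h5 : ∑ x' ∈ s, a x' * |inner ℝ y x'| ^ n = ∑ x ∈ s, a x * |inner ℝ x y| ^ n := by
      refine Finset.sum_congr rfl fun x _ => ?_
      rw [real_inner_comm]
    rw [h4, h5]
    ring
  rw [e3] at h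
  exact h

/-- an infinite positive semidefinite set for an odd power has an infinite subset such that every
point of the set is weakly on one side of it -/
theorem one_sided {d n : ℕ} (hn : Odd n) (S : Set (EuclideanSpace ℝ (Fin (d + 1))))
    (hS : S ⊆ sphere 0 1) (hinf : S.Infinite)
    (hPD : ∀ (s : Finset (EuclideanSpace ℝ (Fin (d + 1))))
      (a : EuclideanSpace ℝ (Fin (d + 1)) → ℝ), (↑s ⊆ S) →
      0 ≤ ∑ x ∈ s, ∑ y ∈ s, a x * a y * |inner ℝ x y| ^ n) :
    ∃ T ⊆ S, T.Infinite ∧ (∀ x ∈ T, ∀ x' ∈ T, 0 < inner ℝ x x') ∧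
      ∀ y ∈ S, (∀ x ∈ T, 0 ≤ inner ℝ x y) ∨ (∀ x ∈ T, inner ℝ x y ≤ 0) := by
  classical
  have hnorm : ∀ x ∈ S, ‖x‖ = 1 := fun x hx => mem_sphere_zero_iff_norm.1 (hS hx)
  -- step 1
  obtain ⟨x0, _, hacc⟩ := hinf.exists_accPt_of_subset_isCompact
    (isCompact_sphere (0 : EuclideanSpace ℝ (Fin (d + 1))) 1) hS
  set S1 : Set (EuclideanSpace ℝ (Fin (d + 1))) := ball x0 (1 / 2) ∩ S with hS1
  have hS1inf : S1.Infinite :=
    Set.Infinite.of_accPt (hacc.nhds_inter (ball_mem_nhds x0 (by norm_num)))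
  have hS1S : S1 ⊆ S := Set.inter_subset_right
  have hpos : ∀ x ∈ S1, ∀ x' ∈ S1, (0 : ℝ) < inner ℝ x x' := by
    intro x hx x' hx'
    have h1 := norm_sub_sq_real x x'
    rw [hnorm x hx.2, hnorm x' hx'.2] at h1
    have h2 : ‖x - x'‖ < 1 := by
      rw [← dist_eq_norm]
      have h3 := mem_ball.1 hx.1
      have h4 := mem_ball'.1 hx'.1
      have h5 := dist_triangle x x0 x'
      linarith
    have h3 := norm_nonneg (x - x')
    nlinarith
  -- step 3
  have hfun : ∀ y ∈ S, ∃ l : ((Fin n → Fin (d + 1)) → ℝ) →ₗ[ℝ] ℝ,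
      ∀ x ∈ S1, l (Phi d n x) = |inner ℝ x y| ^ n := by
    intro y hy
    have h1 := exists_functional (fun x : S1 => Phi d n x) (fun x : S1 => |inner ℝ x.1 y| ^ n) (by
      intro a ha
      -- transport to a finset in E
      let s : Finset (EuclideanSpace ℝ (Fin (d + 1))) := a.support.map ⟨Subtype.val, Subtype.val_injective⟩
      let b : EuclideanSpace ℝ (Fin (d + 1)) → ℝ := fun x => if hx : x ∈ S1 then a ⟨x, hx⟩ else 0
      have hb : ∀ x : S1, b x.1 = a x := by
        intro x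
        simp only [b]
        rw [dif_pos x.2]
      have hsS1 : ∀ x ∈ s, x ∈ S1 := by
        intro x hx
        rw [Finset.mem_map] at hx
        obtain ⟨z, _, rfl⟩ := hx
        exact z.2
      have hsS : (↑s : Set (EuclideanSpace ℝ (Fin (d + 1)))) ⊆ S := fun x hx => hS1S (hsS1 x hx)
      have hsum : ∀ f : EuclideanSpace ℝ (Fin (d + 1)) → ℝ,
          ∑ x ∈ s, b x * f x = a.sum (fun i r => r * f i.1) := by
        intro f
        rw [Finset.sum_map, Finsupp.sum]
        refine Finset.sum_congr rfl fun x _ => ?_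
        simp only [Function.Embedding.coeFn_mk]
        rw [hb]
      have hPhi : ∀ i, ∑ x ∈ s, b x * Phi d n x i = 0 := by
        intro i
        rw [hsum]
        have h2 := congrFun ha i
        rw [Finsupp.sum, Finset.sum_apply] at h2
        exact h2
      have hQ : ∑ x ∈ s, ∑ x' ∈ s, b x * b x' * |inner ℝ x x'| ^ n = 0 := by
        have h3 : ∀ x ∈ s, ∑ x' ∈ s, b x * b x' * |inner ℝ x x'| ^ n =
            ∑ i, b x * Phi d n x i * ∑ x' ∈ s, b x' * Phi d n x' i := by
          intro x hx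
          have h4 : ∀ x' ∈ s, b x * b x' * |inner ℝ x x'| ^ n =
              ∑ i, (b x * Phi d n x i) * (b x' * Phi d n x' i) := by
            intro x' hx'
            rw [abs_of_pos (hpos x (hsS1 x hx) x' (hsS1 x' hx')), ← Phi_inner, Finset.mul_sum]
            refine Finset.sum_congr rfl fun i _ => ?_
            ring
          rw [Finset.sum_congr rfl h4, Finset.sum_comm]
          refine Finset.sum_congr rfl fun i _ => ?_
          rw [Finset.mul_sum]
        rw [Finset.sum_congr rfl h3]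
        simp only [hPhi, mul_zero, Finset.sum_const_zero]
      have h2 := hsum (fun x => |inner ℝ x y| ^ n)
      have h2' : a.sum (fun i r => r * |inner ℝ i.1 y| ^ n) =
        ∑ x ∈ s, b x * |inner ℝ x y| ^ n := h2.symm
      rw [h2']
      set G := ∑ x ∈ s, b x * |inner ℝ x y| ^ n with hG
      have h5 := PD_add hPD s b hsS hy (-G)
      rw [hQ, ← hG, real_inner_self_eq_norm_sq, hnorm y hy] at h5
      simp only [one_pow, abs_one, mul_one] at h5
      nlinarith [sq_nonneg G])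
    obtain ⟨l, hl⟩ := h1
    exact ⟨l, fun x hx => hl ⟨x, hx⟩⟩
  -- step 4
  let Wd : Set (EuclideanSpace ℝ (Fin (d + 1))) → Submodule ℝ ((Fin n → Fin (d + 1)) → ℝ) :=
    fun T => Submodule.span ℝ (Phi d n '' T)
  have hex : ∃ k : ℕ, ∃ T ⊆ S1, T.Infinite ∧ Module.finrank ℝ (Wd T) = k :=
    ⟨_, S1, subset_rfl, hS1inf, rfl⟩
  obtain ⟨T, hTS1, hTinf, hTk⟩ := Nat.find_spec hex
  have hmin : ∀ T' ⊆ T, T'.Infinite → Wd T' = Wd T := by
    intro T' hT' hinf'
    apply Submodule.eq_of_le_of_finrank_le (Submodule.span_mono (Set.image_mono hT'))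
    rw [hTk]
    exact Nat.find_min' hex ⟨T', hT'.trans hTS1, hinf', rfl⟩
  have hvan : ∀ (l : ((Fin n → Fin (d + 1)) → ℝ) →ₗ[ℝ] ℝ), ∀ T' ⊆ T, T'.Infinite →
      (∀ x ∈ T', l (Phi d n x) = 0) → ∀ x ∈ T, l (Phi d n x) = 0 := by
    intro l T' hT' hinf' h x hx
    have h1 : Wd T' ≤ LinearMap.ker l := by
      apply Submodule.span_le.2
      rintro _ ⟨z, hz, rfl⟩
      exact h z hz
    rw [hmin T' hT' hinf'] at h1
    exact h1 (Submodule.subset_span ⟨x, hx, rfl⟩)
  refine ⟨T, hTS1.trans hS1S, hTinf, fun x hx x' hx' => hpos x (hTS1 hx) x' (hTS1 hx'), ?_⟩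
  -- step 5
  intro y hy
  obtain ⟨l, hl⟩ := hfun y hy
  let m : ((Fin n → Fin (d + 1)) → ℝ) →ₗ[ℝ] ℝ := ∑ i, (Phi d n y i) • LinearMap.proj i
  have hm : ∀ x, m (Phi d n x) = (inner ℝ x y) ^ n := by
    intro x
    rw [← Phi_inner]
    simp only [m, LinearMap.sum_apply, LinearMap.smul_apply, LinearMap.proj_apply, smul_eq_mul]
    refine Finset.sum_congr rfl fun i _ => ?_
    ring
  have hn0 : n ≠ 0 := by
    rintro rfl
    exact absurd hn (by decide)
  have hunion : T = {x ∈ T | (0 : ℝ) ≤ inner ℝ x y} ∪ {x ∈ T | (inner ℝ x y : ℝ) ≤ 0} := by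
    ext x
    constructor
    · intro hx
      rcases le_total (0 : ℝ) (inner ℝ x y) with h | h
      · exact Or.inl ⟨hx, h⟩
      · exact Or.inr ⟨hx, h⟩
    · rintro (h | h)
      · exact h.1
      · exact h.1
  have hcases : {x ∈ T | (0 : ℝ) ≤ inner ℝ x y}.Infinite ∨
      {x ∈ T | (inner ℝ x y : ℝ) ≤ 0}.Infinite := by
    rw [← Set.infinite_union, ← hunion]
    exact hTinf
  rcases hcases with hc | hc
  · left
    have h1 := hvan (l - m) _ (fun x hx => hx.1) hc (by
      intro x hx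
      rw [LinearMap.sub_apply, hl x (hTS1 hx.1), hm, abs_of_nonneg hx.2, sub_self])
    intro x hx
    have h2 := h1 x hx
    rw [LinearMap.sub_apply, hl x (hTS1 hx), hm] at h2
    by_contra hneg
    push Not at hneg
    have h3 := hn.pow_neg hneg
    have h4 : 0 ≤ |(inner ℝ x y : ℝ)| ^ n := by positivity
    linarith
  · right
    have h1 := hvan (l + m) _ (fun x hx => hx.1) hc (by
      intro x hx
      rw [LinearMap.add_apply, hl x (hTS1 hx.1), hm, abs_of_nonpos hx.2, hn.neg_pow]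
      ring)
    intro x hx
    have h2 := h1 x hx
    rw [LinearMap.add_apply, hl x (hTS1 hx), hm] at h2
    by_contra hneg
    push Not at hneg
    have h3 : 0 < (inner ℝ x y : ℝ) ^ n := by positivity
    have h4 : 0 ≤ |(inner ℝ x y : ℝ)| ^ n := by positivity
    linarith

end PFrame3
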