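import Pool.Agent.Helper237.P3.Defs

set_option autoImplicit false

open Metric Set Filter Topology MeasureTheory

namespace PFrame3

/-- the kernel -/
noncomputable def pfK {d : ℕ} (p : ℝ) (x y : Sph d) : ℝ :=
  |inner ℝ (x : EuclideanSpace ℝ (Fin (d + 1))) y| ^ p

theorem pfK_cont {d : ℕ} {p : ℝ} (hp : 0 < p) :
    Continuous (fun q : Sph d × Sph d => pfK p q.1 q.2) := by
  unfold pfK
  apply Continuous.rpow_const
  · apply Continuous.abs
    exact (continuous_subtype_val.comp continuous_fst).inner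
      (continuous_subtype_val.comp continuous_snd)
  · intro q; exact Or.inr hp.le

theorem pfK_nonneg {d : ℕ} (p : ℝ) (x y : Sph d) : 0 ≤ pfK p x y :=
  Real.rpow_nonneg (abs_nonneg _) p

theorem pfK_le {d : ℕ} {p : ℝ} (hp : 0 < p) (x y : Sph d) : pfK p x y ≤ 1 := by
  unfold pfK
  apply Real.rpow_le_one (abs_nonneg _) _ hp.le
  refine le_trans (abs_real_inner_le_norm _ _) ?_
  rw [norm_eq_of_mem_sphere x, norm_eq_of_mem_sphere y, one_mul]

theorem pfK_symm {d : ℕ} (p : ℝ) (x y : Sph d) : pfK p x y = pfK p y x := by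
  unfold pfK
  rw [real_inner_comm]

theorem pfK_self {d : ℕ} (p : ℝ) (x : Sph d) : pfK p x x = 1 := by
  unfold pfK
  rw [real_inner_self_eq_norm_sq, norm_eq_of_mem_sphere x]
  simp

theorem pfK_cont1 {d : ℕ} {p : ℝ} (hp : 0 < p) (x : Sph d) : Continuous (fun y => pfK p x y) :=
  (pfK_cont hp).comp (by fun_prop : Continuous fun y : Sph d => (x, y))

theorem pfK_cont2 {d : ℕ} {p : ℝ} (hp : 0 < p) (y : Sph d) : Continuous (fun x => pfK p x y) :=
  (pfK_cont hp).comp (by fun_prop : Continuous fun x : Sph d => (x, y))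

theorem pf_int {d : ℕ} (μ : Measure (Sph d)) [IsFiniteMeasure μ] {f : Sph d → ℝ}
    (hf : Continuous f) : Integrable f μ :=
  hf.integrable_of_hasCompactSupport (HasCompactSupport.of_compactSpace f)

/-- the potential -/
noncomputable def pfU {d : ℕ} (p : ℝ) (μ : Measure (Sph d)) (x : Sph d) : ℝ := ∫ y, pfK p x y ∂μ

theorem pfU_cont {d : ℕ} {p : ℝ} (hp : 0 < p) (μ : Measure (Sph d)) [IsFiniteMeasure μ] :
    Continuous (pfU p μ) := by
  unfold pfU
  refine continuous_of_dominated (bound := fun _ => 1) ?_ ?_ (integrable_const _) ?_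
  · intro x; exact (pfK_cont1 hp x).aestronglyMeasurable
  · intro x
    refine Eventually.of_forall fun y => ?_
    rw [Real.norm_eq_abs, abs_of_nonneg (pfK_nonneg p x y)]
    exact pfK_le hp x y
  · exact Eventually.of_forall fun y => pfK_cont2 hp y

theorem pfE_eq {d : ℕ} (p : ℝ) (μ : Measure (Sph d)) : frameEnergy d p μ = ∫ x, pfU p μ x ∂μ := rfl

theorem pfU_nonneg {d : ℕ} (p : ℝ) (μ : Measure (Sph d)) (x : Sph d) : 0 ≤ pfU p μ x :=
  integral_nonneg fun y => pfK_nonneg p x y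

theorem pfU_le {d : ℕ} {p : ℝ} (hp : 0 < p) (μ : Measure (Sph d)) [IsProbabilityMeasure μ]
    (x : Sph d) : pfU p μ x ≤ 1 := by
  unfold pfU
  calc ∫ y, pfK p x y ∂μ ≤ ∫ _, (1 : ℝ) ∂μ :=
        integral_mono (pf_int μ (pfK_cont1 hp x)) (integrable_const _) fun y => pfK_le hp x y
    _ = 1 := by simp

theorem pfE_le {d : ℕ} {p : ℝ} (hp : 0 < p) (μ : Measure (Sph d)) [IsProbabilityMeasure μ] :
    frameEnergy d p μ ≤ 1 := by
  rw [pfE_eq]
  calc ∫ x, pfU p μ x ∂μ ≤ ∫ _, (1 : ℝ) ∂μ :=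
        integral_mono (pf_int μ (pfU_cont hp μ)) (integrable_const _) fun y => pfU_le hp μ y
    _ = 1 := by simp

/-- integral against the perturbed measure -/
theorem pf_pert {d : ℕ} (μ : Measure (Sph d)) [IsProbabilityMeasure μ] (x : Sph d) (e : ℝ)
    (he0 : 0 ≤ e) (he1 : e ≤ 1) {f : Sph d → ℝ} (hf : Continuous f) :
    ∫ y, f y ∂(ENNReal.ofReal (1 - e) • μ + ENNReal.ofReal e • Measure.dirac x) =
      (1 - e) * ∫ y, f y ∂μ + e * f x := by
  rw [integral_add_measure, integral_smul_measure, integral_smul_measure, integral_dirac,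
    ENNReal.toReal_ofReal (by linarith), ENNReal.toReal_ofReal he0, smul_eq_mul, smul_eq_mul]
  · exact (pf_int μ hf).smul_measure ENNReal.ofReal_ne_top
  · exact (pf_int (Measure.dirac x) hf).smul_measure ENNReal.ofReal_ne_top

theorem pf_energy {d : ℕ} {p : ℝ} (hp : 0 < p) (μ : Measure (Sph d)) [IsProbabilityMeasure μ]
    (x : Sph d) (e : ℝ) (he0 : 0 ≤ e) (he1 : e ≤ 1) :
    frameEnergy d p (ENNReal.ofReal (1 - e) • μ + ENNReal.ofReal e • Measure.dirac x) =
      (1 - e) ^ 2 * frameEnergy d p μ + 2 * e * (1 - e) * pfU p μ x + e ^ 2 := by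
  have h1 : ∀ z, pfU p (ENNReal.ofReal (1 - e) • μ + ENNReal.ofReal e • Measure.dirac x) z =
      (1 - e) * pfU p μ z + e * pfK p z x := fun z => pf_pert μ x e he0 he1 (pfK_cont1 hp z)
  rw [pfE_eq]
  simp_rw [h1]
  have hc : Continuous fun z => (1 - e) * pfU p μ z + e * pfK p z x :=
    ((pfU_cont hp μ).const_mul _).add ((pfK_cont2 hp x).const_mul _)
  rw [pf_pert μ x e he0 he1 hc, integral_add ((pf_int μ (pfU_cont hp μ)).const_mul _)
    ((pf_int μ (pfK_cont2 hp x)).const_mul _), integral_const_mul, integral_const_mul]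
  have h2 : ∫ z, pfK p z x ∂μ = pfU p μ x := by
    unfold pfU
    congr 1
    funext z
    exact pfK_symm p z x
  rw [h2, pfK_self, pfE_eq]
  ring

theorem pf_main {d : ℕ} {p : ℝ} (hp : 0 < p) {μ : Measure (Sph d)} (hμ : IsMinimizer d p μ)
    (x : Sph d) : frameEnergy d p μ ≤ pfU p μ x := by
  haveI := hμ.1
  by_contra hcon
  push Not at hcon
  obtain ⟨e, he⟩ : ∃ e : ℝ, e = min ((frameEnergy d p μ - pfU p μ x) / 2) (1 / 2) := ⟨_, rfl⟩
  have he0 : 0 < e := by rw [he]; exact lt_min (by linarith) (by norm_num)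
  have he1 : e ≤ 1 / 2 := by rw [he]; exact min_le_right _ _
  have he2 : e ≤ (frameEnergy d p μ - pfU p μ x) / 2 := by rw [he]; exact min_le_left _ _
  have hν : IsProbabilityMeasure
      (ENNReal.ofReal (1 - e) • μ + ENNReal.ofReal e • Measure.dirac x) := by
    constructor
    rw [Measure.add_apply, Measure.smul_apply, Measure.smul_apply, measure_univ, measure_univ,
      smul_eq_mul, smul_eq_mul, mul_one, mul_one, ← ENNReal.ofReal_add (by linarith) he0.le]
    simp
  have h1 := hμ.2 _ hν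
  rw [pf_energy hp μ x e he0.le (by linarith)] at h1
  have h2 := pfE_le hp μ
  have h3 := pfU_nonneg p μ x
  have h4 : 0 ≤ e * ((-2 + e) * frameEnergy d p μ + 2 * (1 - e) * pfU p μ x + e) := by
    nlinarith
  have h5 : 0 ≤ (-2 + e) * frameEnergy d p μ + 2 * (1 - e) * pfU p μ x + e :=
    nonneg_of_mul_nonneg_right h4 he0
  have h6 : e * (frameEnergy d p μ - 2 * pfU p μ x + 1) ≤ e * 2 :=
    mul_le_mul_of_nonneg_left (by linarith) he0.le
  nlinarith

/-- the potential is at least the energy -/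
theorem potential_ge {d : ℕ} {p : ℝ} (hp : 0 < p) {μ : Measure (Sph d)} (hμ : IsMinimizer d p μ)
    (x : Sph d) :
    frameEnergy d p μ ≤ ∫ y : Sph d, |inner ℝ (x : EuclideanSpace ℝ (Fin (d + 1))) y| ^ p ∂μ := by
  exact pf_main hp hμ x

/-- the potential equals the energy on the support -/
theorem potential_eq {d : ℕ} {p : ℝ} (hp : 0 < p) {μ : Measure (Sph d)} (hμ : IsMinimizer d p μ)
    (x : Sph d) (hx : x ∈ μ.support) :
    ∫ y : Sph d, |inner ℝ (x : EuclideanSpace ℝ (Fin (d + 1))) y| ^ p ∂μ = frameEnergy d p μ := by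
  haveI := hμ.1
  show pfU p μ x = frameEnergy d p μ
  have hcont : Continuous fun z => pfU p μ z - frameEnergy d p μ :=
    (pfU_cont hp μ).sub continuous_const
  have hnn : ∀ z, 0 ≤ pfU p μ z - frameEnergy d p μ := fun z => by
    have := pf_main hp hμ z
    linarith
  have hint : ∫ z, (pfU p μ z - frameEnergy d p μ) ∂μ = 0 := by
    rw [integral_sub (pf_int μ (pfU_cont hp μ)) (integrable_const _), ← pfE_eq]
    simp
  rw [integral_eq_zero_iff_of_nonneg hnn (pf_int μ hcont)] at hint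
  by_contra hne
  have hlt : 0 < pfU p μ x - frameEnergy d p μ := lt_of_le_of_ne (hnn x) (by
    intro h; apply hne; linarith)
  have hU : {z | 0 < pfU p μ z - frameEnergy d p μ} ∈ 𝓝 x :=
    (isOpen_lt continuous_const hcont).mem_nhds hlt
  have hpos := (Measure.mem_support_iff_forall x).mp hx _ hU
  have hzero : μ {z | 0 < pfU p μ z - frameEnergy d p μ} = 0 := by
    have h1 : ∀ᵐ z ∂μ, ¬ 0 < pfU p μ z - frameEnergy d p μ := by
      filter_upwards [hint] with z hz
      have hz' : pfU p μ z - frameEnergy d p μ = 0 := hz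
      rw [hz']; exact lt_irrefl _
    rw [ae_iff] at h1
    simpa using h1
  rw [hzero] at hpos
  exact lt_irrefl _ hpos

end PFrame3
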