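import Pool.Agent.Helper237.P3.Defs

set_option autoImplicit false

open Metric Set Filter Topology MeasureTheory

namespace PFrame3

theorem lin4 {α : Type*} [MeasurableSpace α] (μ : Measure α) (f1 f2 f3 f4 : α → ℝ) (h1 : Integrable f1 μ)
    (h2 : Integrable f2 μ) (h3 : Integrable f3 μ) (h4 : Integrable f4 μ) (c2 c3 c4 : ℝ) :
    ∫ y, (f1 y + c2 * f2 y + c3 * f3 y + c4 * f4 y) ∂μ =
      (∫ y, f1 y ∂μ) + c2 * (∫ y, f2 y ∂μ) + c3 * (∫ y, f3 y ∂μ) + c4 * (∫ y, f4 y ∂μ) := by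
  have i2 : Integrable (fun y => c2 * f2 y) μ := h2.const_mul c2
  have i3 : Integrable (fun y => c3 * f3 y) μ := h3.const_mul c3
  have i4 : Integrable (fun y => c4 * f4 y) μ := h4.const_mul c4
  have i12 : Integrable (fun y => f1 y + c2 * f2 y) μ := h1.add i2
  have i123 : Integrable (fun y => f1 y + c2 * f2 y + c3 * f3 y) μ := i12.add i3
  rw [integral_add i123 i4, integral_add i12 i3, integral_add h1 i2, integral_const_mul,
    integral_const_mul, integral_const_mul]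

theorem hge_all {d : ℕ} (μ : Measure (Sph d)) (I : ℝ)
    (hge : ∀ x : Sph d, I ≤ ∫ y : Sph d, |inner ℝ (x : EuclideanSpace ℝ (Fin (d + 1))) y| ^ 3 ∂μ)
    (z : EuclideanSpace ℝ (Fin (d + 1))) :
    I * ‖z‖ ^ 3 ≤ ∫ y : Sph d, |inner ℝ z (y : EuclideanSpace ℝ (Fin (d + 1)))| ^ 3 ∂μ := by
  by_cases hz : z = 0
  · subst hz
    simp
  · have hzn : 0 < ‖z‖ := norm_pos_iff.mpr hz
    have hw : ‖z‖⁻¹ • z ∈ sphere (0 : EuclideanSpace ℝ (Fin (d + 1))) 1 := by
      rw [mem_sphere_zero_iff_norm, norm_smul, norm_inv, norm_norm, inv_mul_cancel₀ hzn.ne']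
    have h1 := hge ⟨‖z‖⁻¹ • z, hw⟩
    have h2 : ∫ y : Sph d, |inner ℝ z (y : EuclideanSpace ℝ (Fin (d + 1)))| ^ 3 ∂μ =
        ‖z‖ ^ 3 * ∫ y : Sph d, |inner ℝ ((‖z‖⁻¹ • z : EuclideanSpace ℝ (Fin (d + 1)))) y| ^ 3 ∂μ := by
      rw [← integral_const_mul]
      congr 1
      funext y
      rw [real_inner_smul_left, abs_mul, mul_pow, abs_of_pos (inv_pos.mpr hzn), inv_pow]
      field_simp
    rw [h2, mul_comm]
    exact mul_le_mul_of_nonneg_left h1 (by positivity)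

theorem int_cont {d : ℕ} (μ : Measure (Sph d)) [IsProbabilityMeasure μ] (f : Sph d → ℝ)
    (hf : Continuous f) : Integrable f μ :=
  hf.integrable_of_hasCompactSupport (HasCompactSupport.of_compactSpace f)

theorem abs_sub_same {u v e : ℝ} (h : 0 ≤ u * v) : |u - e * v| = |(|u| - e * |v|)| := by
  rcases le_or_gt 0 u with hu | hu
  · rcases eq_or_lt_of_le hu with hu0 | hu0
    · rw [← hu0]
      simp [abs_mul]
    · have hv : 0 ≤ v := by
        by_contra hv
        push Not at hv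
        nlinarith
      rw [abs_of_nonneg hu, abs_of_nonneg hv]
  · have hv : v ≤ 0 := by
      by_contra hv
      push Not at hv
      nlinarith
    rw [abs_of_neg hu, abs_of_nonpos hv, ← abs_neg]
    congr 1
    ring

theorem cube_bd {a b e : ℝ} (ha : 0 ≤ a) (hb : 0 ≤ b) (he : 0 ≤ e) :
    |a - e * b| ^ 3 ≤ (a - e * b) ^ 3 + 2 * (e * b) ^ 3 := by
  have heb : 0 ≤ e * b := mul_nonneg he hb
  have h3 : 0 ≤ (e * b) ^ 3 := by positivity
  rcases le_or_gt 0 (a - e * b) with h | h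
  · rw [abs_of_nonneg h]
    linarith
  · rw [abs_of_neg h]
    have h1 : -(a - e * b) ≤ e * b := by linarith
    have h2 : (-(a - e * b)) ^ 3 ≤ (e * b) ^ 3 := pow_le_pow_left₀ (by linarith) h1 3
    have h4 : (-(a - e * b)) ^ 3 = -((a - e * b) ^ 3) := by ring
    rw [h4] at h2 ⊢
    linarith

theorem side_bd {d : ℕ} (μ : Measure (Sph d)) [IsProbabilityMeasure μ] (I : ℝ) (hI : 0 < I)
    (hge : ∀ x : Sph d, I ≤ ∫ y : Sph d, |inner ℝ (x : EuclideanSpace ℝ (Fin (d + 1))) y| ^ 3 ∂μ)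
    (x x' : Sph d)
    (hx : ∫ y : Sph d, |inner ℝ (x : EuclideanSpace ℝ (Fin (d + 1))) y| ^ 3 ∂μ = I)
    (hx' : ∫ y : Sph d, |inner ℝ (x' : EuclideanSpace ℝ (Fin (d + 1))) y| ^ 3 ∂μ = I)
    (hside : ∀ᵐ y : Sph d ∂μ, 0 ≤ inner ℝ (x : EuclideanSpace ℝ (Fin (d + 1))) y *
      inner ℝ (x' : EuclideanSpace ℝ (Fin (d + 1))) y) :
    ∫ y : Sph d, |inner ℝ (x : EuclideanSpace ℝ (Fin (d + 1))) y| ^ 2 *
      |inner ℝ (x' : EuclideanSpace ℝ (Fin (d + 1))) y| ∂μ ≤
      inner ℝ (x : EuclideanSpace ℝ (Fin (d + 1))) x' * I := by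
  set a : Sph d → ℝ := fun y => |inner ℝ (x : EuclideanSpace ℝ (Fin (d + 1))) y| with ha
  set b : Sph d → ℝ := fun y => |inner ℝ (x' : EuclideanSpace ℝ (Fin (d + 1))) y| with hb
  have hac : Continuous a := by
    rw [ha]
    exact (continuous_const.inner continuous_subtype_val).abs
  have hbc : Continuous b := by
    rw [hb]
    exact (continuous_const.inner continuous_subtype_val).abs
  have ha0 : ∀ y, 0 ≤ a y := fun y => abs_nonneg _
  have hb0 : ∀ y, 0 ≤ b y := fun y => abs_nonneg _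
  set k : ℝ := inner ℝ (x : EuclideanSpace ℝ (Fin (d + 1))) x' with hk
  set B : ℝ := ∫ y, a y ^ 2 * b y ∂μ with hB
  set C : ℝ := ∫ y, a y * b y ^ 2 ∂μ with hC
  have hia3 : Integrable (fun y => a y ^ 3) μ := int_cont μ _ (by fun_prop)
  have hib3 : Integrable (fun y => b y ^ 3) μ := int_cont μ _ (by fun_prop)
  have hiB : Integrable (fun y => a y ^ 2 * b y) μ := int_cont μ _ (by fun_prop)
  have hiC : Integrable (fun y => a y * b y ^ 2) μ := int_cont μ _ (by fun_prop)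
  have hC0 : 0 ≤ C := integral_nonneg fun y => mul_nonneg (ha0 y) (sq_nonneg _)
  have hxn : ‖(x : EuclideanSpace ℝ (Fin (d + 1)))‖ = 1 := by
    have := x.2
    rwa [mem_sphere_zero_iff_norm] at this
  have hxn' : ‖(x' : EuclideanSpace ℝ (Fin (d + 1)))‖ = 1 := by
    have := x'.2
    rwa [mem_sphere_zero_iff_norm] at this
  have key : ∀ e : ℝ, 0 < e → e ≤ 1 → B ≤ k * I + e * (C + I) := by
    intro e he he1
    have h1 := hge_all μ I hge ((x : EuclideanSpace ℝ (Fin (d + 1))) - e • (x' : EuclideanSpace ℝ (Fin (d + 1))))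
    set r := ‖(x : EuclideanSpace ℝ (Fin (d + 1))) - e • (x' : EuclideanSpace ℝ (Fin (d + 1)))‖ with hr
    have hr0 : 0 ≤ r := norm_nonneg _
    have hr2 : r ^ 2 = 1 - 2 * k * e + e ^ 2 := by
      rw [hr, norm_sub_sq_real, hxn, norm_smul, hxn', real_inner_smul_right, Real.norm_eq_abs, abs_of_pos he]
      ring
    have hr3 : 1 - 3 * k * e + 3 / 2 * e ^ 2 ≤ r ^ 3 := by
      have : 0 ≤ (r - 1) ^ 2 * (2 * r + 1) := by positivity
      nlinarith
    have h2 : ∫ y : Sph d, |inner ℝ ((x : EuclideanSpace ℝ (Fin (d + 1))) - e • (x' : EuclideanSpace ℝ (Fin (d + 1)))) (y : EuclideanSpace ℝ (Fin (d + 1)))| ^ 3 ∂μ ≤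
        ∫ y, (a y ^ 3 - 3 * e * (a y ^ 2 * b y) + 3 * e ^ 2 * (a y * b y ^ 2) + e ^ 3 * b y ^ 3) ∂μ := by
      apply integral_mono_ae
      · apply int_cont
        exact ((continuous_const.inner continuous_subtype_val).abs).pow 3
      · exact ((hia3.sub (hiB.const_mul _)).add (hiC.const_mul _)).add (hib3.const_mul _)
      · filter_upwards [hside] with y hy
        rw [inner_sub_left, real_inner_smul_left, abs_sub_same hy]
        refine (cube_bd (ha0 y) (hb0 y) he.le).trans (le_of_eq ?_)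
        ring
    have h3 : ∫ y, (a y ^ 3 - 3 * e * (a y ^ 2 * b y) + 3 * e ^ 2 * (a y * b y ^ 2) + e ^ 3 * b y ^ 3) ∂μ =
        I - 3 * e * B + 3 * e ^ 2 * C + e ^ 3 * I := by
      have h5 := lin4 μ _ _ _ _ hia3 hiB hiC hib3 (-(3 * e)) (3 * e ^ 2) (e ^ 3)
      have h6 : (∫ y, b y ^ 3 ∂μ) = I := hx'
      have h7 : (∫ y, a y ^ 3 ∂μ) = I := hx
      rw [h6, h7, ← hB, ← hC] at h5
      have h8 : (fun y => a y ^ 3 - 3 * e * (a y ^ 2 * b y) + 3 * e ^ 2 * (a y * b y ^ 2) + e ^ 3 * b y ^ 3) =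
          fun y => a y ^ 3 + -(3 * e) * (a y ^ 2 * b y) + 3 * e ^ 2 * (a y * b y ^ 2) + e ^ 3 * b y ^ 3 := by
        funext y
        ring
      rw [h8, h5]
      ring
    rw [h3] at h2
    have h4 : I * (1 - 3 * k * e + 3 / 2 * e ^ 2) ≤ I - 3 * e * B + 3 * e ^ 2 * C + e ^ 3 * I :=
      (mul_le_mul_of_nonneg_left hr3 hI.le).trans (h1.trans h2)
    have h5 : 3 * e * B ≤ 3 * e * (k * I + e * (C + I)) := by
      have h6 : e ^ 3 * I ≤ e ^ 2 * I := by
        have : e ^ 3 ≤ e ^ 2 := by nlinarith [sq_nonneg e]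
        exact mul_le_mul_of_nonneg_right this hI.le
      have h7 : 0 ≤ e ^ 2 * I := by positivity
      nlinarith
    exact le_of_mul_le_mul_left h5 (by positivity)
  by_contra hcon
  push Not at hcon
  have hCI : 0 < C + I := by linarith
  have hδ : 0 < B - k * I := by linarith
  set e := min 1 ((B - k * I) / (2 * (C + I))) with he
  have he0 : 0 < e := lt_min one_pos (by positivity)
  have h1 := key e he0 (min_le_left _ _)
  have h2 : e * (C + I) ≤ (B - k * I) / (2 * (C + I)) * (C + I) :=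
    mul_le_mul_of_nonneg_right (min_le_right _ _) hCI.le
  have h3 : (B - k * I) / (2 * (C + I)) * (C + I) = (B - k * I) / 2 := by
    field_simp
  rw [h3] at h2
  linarith

/-- two-point contradiction for `p = 3` -/
theorem two_point {d : ℕ} (μ : Measure (Sph d)) [IsProbabilityMeasure μ] (I : ℝ) (hI : 0 < I)
    (hge : ∀ x : Sph d, I ≤ ∫ y : Sph d, |inner ℝ (x : EuclideanSpace ℝ (Fin (d + 1))) y| ^ 3 ∂μ)
    (x x' : Sph d) (hne : x ≠ x') (hpos : 0 < inner ℝ (x : EuclideanSpace ℝ (Fin (d + 1))) x')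
    (hx : ∫ y : Sph d, |inner ℝ (x : EuclideanSpace ℝ (Fin (d + 1))) y| ^ 3 ∂μ = I)
    (hx' : ∫ y : Sph d, |inner ℝ (x' : EuclideanSpace ℝ (Fin (d + 1))) y| ^ 3 ∂μ = I)
    (hside : ∀ᵐ y : Sph d ∂μ, 0 ≤ inner ℝ (x : EuclideanSpace ℝ (Fin (d + 1))) y *
      inner ℝ (x' : EuclideanSpace ℝ (Fin (d + 1))) y) : False := by
  have hB := side_bd μ I hI hge x x' hx hx' hside
  have hC := side_bd μ I hI hge x' x hx' hx (hside.mono fun y hy => by rwa [mul_comm])
  rw [real_inner_comm] at hC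
  set a : Sph d → ℝ := fun y => |inner ℝ (x : EuclideanSpace ℝ (Fin (d + 1))) y| with ha
  set b : Sph d → ℝ := fun y => |inner ℝ (x' : EuclideanSpace ℝ (Fin (d + 1))) y| with hb
  have hac : Continuous a := by
    rw [ha]
    exact (continuous_const.inner continuous_subtype_val).abs
  have hbc : Continuous b := by
    rw [hb]
    exact (continuous_const.inner continuous_subtype_val).abs
  set k : ℝ := inner ℝ (x : EuclideanSpace ℝ (Fin (d + 1))) x' with hk
  have hia3 : Integrable (fun y => a y ^ 3) μ := int_cont μ _ (by fun_prop)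
  have hib3 : Integrable (fun y => b y ^ 3) μ := int_cont μ _ (by fun_prop)
  have hiB : Integrable (fun y => a y ^ 2 * b y) μ := int_cont μ _ (by fun_prop)
  have hiC : Integrable (fun y => b y ^ 2 * a y) μ := int_cont μ _ (by fun_prop)
  have hxn : ‖(x : EuclideanSpace ℝ (Fin (d + 1)))‖ = 1 := by
    have := x.2
    rwa [mem_sphere_zero_iff_norm] at this
  have hxn' : ‖(x' : EuclideanSpace ℝ (Fin (d + 1)))‖ = 1 := by
    have := x'.2
    rwa [mem_sphere_zero_iff_norm] at this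
  have hk1 : k < 1 := by
    rw [hk, inner_lt_one_iff_real_of_norm_eq_one hxn hxn']
    exact fun h => hne (Subtype.ext h)
  have h1 := hge_all μ I hge ((x : EuclideanSpace ℝ (Fin (d + 1))) + (x' : EuclideanSpace ℝ (Fin (d + 1))))
  set r := ‖(x : EuclideanSpace ℝ (Fin (d + 1))) + (x' : EuclideanSpace ℝ (Fin (d + 1)))‖ with hr
  have hr0 : 0 ≤ r := norm_nonneg _
  have hr2 : r ^ 2 = 2 + 2 * k := by
    rw [hr, norm_add_sq_real, hxn, hxn']
    ring
  have h2 : ∫ y : Sph d, |inner ℝ ((x : EuclideanSpace ℝ (Fin (d + 1))) + (x' : EuclideanSpace ℝ (Fin (d + 1)))) (y : EuclideanSpace ℝ (Fin (d + 1)))| ^ 3 ∂μ =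
      ∫ y, (a y ^ 3 + 3 * (a y ^ 2 * b y) + 3 * (b y ^ 2 * a y) + b y ^ 3) ∂μ := by
    apply integral_congr_ae
    filter_upwards [hside] with y hy
    have h3 := abs_sub_same (e := -1) hy
    simp only [neg_one_mul, sub_neg_eq_add] at h3
    rw [inner_add_left, h3, abs_of_nonneg (add_nonneg (abs_nonneg _) (abs_nonneg _))]
    simp only [ha, hb]
    ring
  have h3 : ∫ y, (a y ^ 3 + 3 * (a y ^ 2 * b y) + 3 * (b y ^ 2 * a y) + b y ^ 3) ∂μ =
      I + 3 * (∫ y, a y ^ 2 * b y ∂μ) + 3 * (∫ y, b y ^ 2 * a y ∂μ) + I := by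
    have h5 := lin4 μ _ _ _ _ hia3 hiB hiC hib3 3 3 1
    have h6 : (∫ y, b y ^ 3 ∂μ) = I := hx'
    have h7 : (∫ y, a y ^ 3 ∂μ) = I := hx
    rw [h6, h7] at h5
    simp only [one_mul] at h5
    exact h5
  rw [h2, h3] at h1
  have h4 : I * r ^ 3 ≤ I * (3 * r ^ 2 - 4) := by
    rw [hr2]
    nlinarith
  have h5 : r ^ 3 ≤ 3 * r ^ 2 - 4 := le_of_mul_le_mul_left h4 hI
  have hr4 : r ≠ 2 := by
    intro h
    rw [h] at hr2
    linarith
  have h6 : 0 < (r - 2) ^ 2 * (r + 1) := by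
    have : 0 < (r - 2) ^ 2 := by
      have : r - 2 ≠ 0 := sub_ne_zero.mpr hr4
      positivity
    positivity
  nlinarith

end PFrame3
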